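import Mathlib
import Pool.Agent.Helper99.E3.Far2
import Pool.Agent.Helper86.E3.DescDefs

/-!
# E-T (MP_12a1af_nt), phase 3: far inequalities, the fields `F1`, `F1P`, `F4P` of `FarKin`
-/

variable [Pool.Agent.Helper29.E3.EpFn]

namespace Pool.Agent.Helper29.E3

open Pool.Agent.Helper29.ETK

open Pool.Agent.E3 (Desc IsDesc Occ ddist)

variable {c : ℕ}

/-- the top unit of a zone of `P` type -/
theorem occP (hc : 10 ≤ c) {t : ℕ} (ht : 9 ≤ epo c t) {d : Desc} (hd : Occ c t d) (hP : d.IsP) :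
    ∃ u, un c u = u ∧ d.hi c = u + Wd c u ∧ isM c t u ∧ gM c t u = d.lo ∧ d.lo ≤ u ∧
      d.hi c ≤ wb c t := by
  obtain ⟨r0, r1, h⟩ := hd
  cases d with
  | P g e =>
    obtain ⟨-, -, h1, h2, h3, h4⟩ := h
    have hk : kid c t (e - 1) = .P g := h3 _ (by omega) (by omega)
    obtain ⟨k1, k2, k3⟩ := P_last hc ht (by omega) h2 hk h4
    refine ⟨un c (e - 1), un_un hc _, k1.symm, k2, k3, ?_, h2⟩
    have := gM_le hc ht (un_un hc (e - 1)) k2
    rw [k3] at this
    exact this
  | PT g b =>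
    obtain ⟨-, -, h1, h2, h3, h4, h5⟩ := h
    have hW := Wd_pos c b
    have hk : kid c t b = .PT g b := h4 _ h1 (by omega)
    obtain ⟨hM, hg⟩ := (kid_P_iff t b g).mp (Or.inr ⟨b, hk⟩)
    rw [kid_of_isM hM, hg] at hk
    rcases kidP_cases c t g with h6 | h6
    · rw [h6.1] at hk
      simp at hk
    · obtain ⟨h7, h0, hag, -⟩ := h6
      rw [h7] at hk
      simp only [Kid.PT.injEq, true_and] at hk
      obtain ⟨hub, hact⟩ := ab_spec hc ht h0
      rw [hk] at hub hact
      rw [ag_eq, hk] at hag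
      exact ⟨b, hub, rfl, isM_of_acts hact, hag, h1, h2.trans h3⟩
  | RS g b v => exact hP.elim
  | R b v => exact hP.elim
  | RT b v => exact hP.elim
  | RTh b v => exact hP.elim

lemma ab_of_kid_R (hc : 10 ≤ c) {t s v : ℕ} (ht : 9 ≤ epo c t) (h : kid c t s = .R v) :
    0 < ab c t ∧ av c t = v ∧ ¬ isM c t (un c s) := by
  obtain ⟨hM, hv⟩ := (kid_R_iff t s v).mp (Or.inl h)
  rw [kid_of_not_isM hM, hv] at h
  rcases kidR_cases c t v with h2 | h2 | h2
  · rw [h2.1] at h; simp at h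
  · rw [h2.1] at h; simp at h
  · exact ⟨h2.2.1, h2.2.2.1, hM⟩

lemma un_start (hc : 10 ≤ c) {t b : ℕ} {k : Kid} (ht : 9 ≤ epo c t) (hk : kid c t b = k)
    (hR : ¬ isM c t (un c b)) (hcut : b = 0 ∨ kid c t (b - 1) ≠ k) : un c b = b ∧ 0 < b := by
  have hb0 : b ≠ 0 := by
    rintro rfl
    have h1 : fin c (tm c t) 0 := fin_of_le hc ht (by omega)
    apply hR
    have h0 : un c 0 = 0 := Nat.le_zero.mp (un_le c 0)
    rw [h0]
    exact Or.inl (Or.inl h1)
  have h2 : kid c t (b - 1) ≠ kid c t b := by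
    rcases hcut with h1 | h1
    · exact absurd h1 hb0
    · rw [hk]; exact h1
  exact ⟨(un_of_ne hc (by omega) h2).1, by omega⟩

/-- the boundary unit of a zone of `R` type -/
theorem occR (hc : 10 ≤ c) {t : ℕ} (ht : 9 ≤ epo c t) {d : Desc} (hd : Occ c t d) (hR : d.IsR) :
    ∃ b, un c b = b ∧ 0 < b ∧ d.Ip c = b + Wd c b ∧
      ((d.lo = b ∧ ¬ isP c t b ∧ ¬ isP c (tm c t) b ∧ b < wb c t ∧ d.hi c = va c t b) ∨
        (d.lo = b ∧ acts c t b ∧ d.hi c = vM c t b) ∨
        (d.lo = b + Wd c b ∧ acts c t b ∧ b + Wd c b < vM c t b ∧ d.hi c = vM c t b)) := by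
  obtain ⟨r0, r1, h⟩ := hd
  cases d with
  | P g e => exact hR.elim
  | PT g e => exact hR.elim
  | RS g b v =>
    obtain ⟨-, -, hv, h1, h2, h3, h4, -⟩ := h
    have hW := Wd_pos c b
    have hk : kid c t b = .PT g b := h4 _ h1 (by omega)
    obtain ⟨hM, hg⟩ := (kid_P_iff t b g).mp (Or.inr ⟨b, hk⟩)
    rw [kid_of_isM hM, hg] at hk
    rcases kidP_cases c t g with h6 | h6
    · rw [h6.1] at hk
      simp at hk
    · obtain ⟨h7, h0, hag, -⟩ := h6
      rw [h7] at hk
      simp only [Kid.PT.injEq, true_and] at hk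
      obtain ⟨hub, hact⟩ := ab_spec hc ht h0
      rw [hk] at hub hact h0
      refine ⟨b, hub, h0, rfl, Or.inr (Or.inl ⟨rfl, hact, ?_⟩)⟩
      have : av c t = vM c t b := by rw [av_eq, hk]
      rw [← this, ← hv]
      rfl
  | R b v =>
    obtain ⟨-, -, h1, h2, h3, h4⟩ := h
    have hk := h3 b (le_refl _) h1
    obtain ⟨h0, hav, hM⟩ := ab_of_kid_R hc ht hk
    obtain ⟨hub, hact⟩ := ab_spec hc ht h0
    obtain ⟨hst, hb0⟩ := un_start hc ht hk hM h4
    have hlt := lt_of_va_eq hc ht hub (un_un hc b) hact hM (by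
      rw [((kid_R_iff t b v).mp (Or.inl hk)).2, ← av_eq, hav])
    rw [hst] at hlt
    have h5 := unit_add_le hc hub hst hlt
    have h6 : b = ab c t + Wd c (ab c t) := by
      by_contra hne
      rcases h4 with h7 | h7
      · omega
      · apply h7
        obtain ⟨k1, k2, -⟩ := kid_above_acts hc ht hub hact (s := b - 1) (by omega)
          (by rw [← av_eq, hav]; omega)
        obtain ⟨-, k4⟩ := (kid_R_iff t b v).mp (Or.inl hk)
        rw [kid_of_not_isM k1, k2, ← av_eq, hav, ← hk, kid_of_not_isM hM, k4]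
    refine ⟨ab c t, hub, h0, h6, Or.inr (Or.inr ⟨h6, hact, ?_, ?_⟩)⟩
    · rw [← av_eq, hav]; omega
    · rw [← av_eq, hav]; rfl
  | RT b v =>
    obtain ⟨-, -, h1, h2, h3, h4⟩ := h
    have hk := h3 b (le_refl _) h1
    obtain ⟨hM, hv⟩ := (kid_R_iff t b v).mp (Or.inr (Or.inl hk))
    obtain ⟨hst, hb0⟩ := un_start hc ht hk hM h4
    rw [hst] at hM hv
    exact ⟨b, hst, hb0, rfl, Or.inl ⟨rfl, fun h => hM (Or.inr h), fun h => hM (Or.inl h),
      by omega, hv.symm⟩⟩
  | RTh b v =>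
    obtain ⟨-, -, h1, h2, h3, h4⟩ := h
    have hk := h3 b (le_refl _) h1
    obtain ⟨hM, hv⟩ := (kid_R_iff t b v).mp (Or.inr (Or.inr hk))
    obtain ⟨hst, hb0⟩ := un_start hc ht hk hM h4
    rw [hst] at hM hv
    exact ⟨b, hst, hb0, rfl, Or.inl ⟨rfl, fun h => hM (Or.inr h), fun h => hM (Or.inl h),
      by omega, hv.symm⟩⟩

/-- the first unit above a transition is not an anchor of a later `P` run -/
lemma no_anchor_above (hc : 10 ≤ c) {K K' g b : ℕ} (hE : 9 ≤ epo c K') (hKK : K' ≤ K)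
    (hb : un c b = b) (hg : un c g = g) (ha : acts c K' b) (hbg : b < g)
    (hgv : g < vM c K' b) (hM : isM c K g) (hgM : gM c K g = g) : False := by
  have hEK : 9 ≤ epo c K := hE.trans (epo_mono hKK)
  have hE0 := epo_tm hc hE
  obtain ⟨h15, -, -, -, hcase⟩ := acts_cases hc hE hb ha
  have hng : ¬ acts c K' g := fun h' => by
    have := acts_unique hc hE hb hg ha h'
    omega
  have hs := same_of_not_acts hc hE hg hng
  have hlg := lg_mono (c := c) hbg.le
  -- the state of `g` at `tm c K'`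
  have key : ¬ isP c (tm c K') g ∧ gl c (lev c (tm c K') g) g ≤ b := by
    rcases hcase with h1 | h1
    · have hv : vM c K' b = va c (tm c K') b := by unfold vM; rw [if_neg h1.2.1]
      obtain ⟨k1, k2, k3⟩ := not_isP_above hc (t := tm c K') (by omega) hb hg (by omega)
        h1.2.1 hbg.le (by rw [← hv]; exact hgv)
      exact ⟨k1, by rw [k2, k3]; exact gl_le _ _ _⟩
    · have hv : vM c K' b = va c K' b := by unfold vM; rw [if_pos h1.2.1]
      obtain ⟨k1, k2, k3⟩ := not_isP_above hc (t := K') (by omega) hb hg (by omega)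
        h1.1 hbg.le (by rw [← hv]; exact hgv)
      exact ⟨fun h => k1 (hs.2.mp h), by rw [hs.1, k2, k3]; exact gl_le _ _ _⟩
  obtain ⟨l, hl, hj, hgl, -, hD⟩ := gM_gl hc hEK hg hM
  have hj := hj (by omega)
  rw [hgM] at hgl
  rcases Nat.lt_or_ge (lev c (tm c K') g) l with h1 | h1
  · have h2 : CC c ^ lev c (tm c K') g ∣ g := by
      have h5 := (pow_dvd' c h1.le).trans (dvd_gl c l g)
      rwa [← hgl] at h5
    have h3 : gl c (lev c (tm c K') g) g = g :=
      gl_eq h2 (le_refl _) (by have := pow_pos' c (lev c (tm c K') g); omega)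
    omega
  · have h2 := lev_le_of_not_isP (c := c) (t := tm c K') (b := g) (by omega) key.1
    have h3 : exD c (tm c K') l g :=
      (exD_iff hc (t := tm c K') (by omega) hg (by omega) hj (by omega)).mpr (by
        rcases Nat.eq_or_lt_of_le h1 with h4 | h4
        · exact Or.inr ⟨h4, key.1⟩
        · exact Or.inl h4)
    rcases hD with h4 | h4
    · omega
    · exact h4.2 (by omega) (exD_mono (tm_mono hc hE hKK) h3)

/-- field `F1` of `FarKin` -/
theorem farF1 (hc : 10 ≤ c) {K K' : ℕ} (hE : 9 ≤ epo c K') (hKK : K' ≤ K) :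
    ∀ d d', Occ c K d → Occ c K' d' → d.IsP → d'.IsR → d.lo ≤ d'.lo →
      (10 * CC c + 9) * (d.hi c - d'.Ip c) ≤ 10 * CC c * (K - K') := by
  intro d d' hd hd' hP hR hlo
  have hEK : 9 ≤ epo c K := hE.trans (epo_mono hKK)
  obtain ⟨u, hu, hhi, hM, hgM, hgu, -⟩ := occP hc hEK hd hP
  obtain ⟨b, hb, hb0, hIp, hcase⟩ := occR hc hE hd' hR
  rw [hhi, hIp]
  rcases Nat.lt_or_ge (b + Wd c b) (u + Wd c u) with hlt | hge
  · have hbu : b < u := by
      by_contra hn
      have := Wd_mono (c := c) (b := u) (b' := b) (by omega)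
      omega
    have hgb : gM c K u ≤ b ∧ ((¬ isP c K' b ∧ ¬ isP c (tm c K') b) ∨ acts c K' b) := by
      rw [hgM]
      rcases hcase with h1 | h1 | h1
      · exact ⟨by omega, Or.inl ⟨h1.2.1, h1.2.2.1⟩⟩
      · exact ⟨by omega, Or.inr h1.2.1⟩
      · refine ⟨?_, Or.inr h1.2.1⟩
        by_contra hn
        have hug : un c d.lo = d.lo := by
          rw [un_eq_iff]
          have := (Wd_dvd_gM hc hEK hu hM (s' := d.lo) (by omega) (by
            have := Wd_pos c u
            omega)).1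
          rw [hgM] at this
          exact this
        have h2 := unit_add_le hc hb hug (by omega)
        obtain ⟨k1, k2⟩ := isM_below hc hEK hu hug hM (by omega) hgu
        rw [hgM] at k2
        exact no_anchor_above hc hE hKK hb hug h1.2.1 (by omega) (by omega) k1 k2
    exact F1_core hc hE hKK hu hb hM hgb.1 hbu hgb.2
  · have : u + Wd c u - (b + Wd c b) = 0 := by omega
    rw [this]
    simp

/-- field `F1P` of `FarKin` -/
theorem farF1P (hc : 10 ≤ c) {K K' : ℕ} (hE : 9 ≤ epo c K') (hKK : K' ≤ K) :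
    ∀ d d', Occ c K d → Occ c K' d' → d.IsP → d'.IsP → d.lo < d'.lo →
      (10 * CC c + 9) * (d.hi c - d'.lo) ≤ 10 * CC c * (K - K') := by
  intro d d' hd hd' hP hP' hlo
  have hEK : 9 ≤ epo c K := hE.trans (epo_mono hKK)
  obtain ⟨u, hu, hhi, hM, hgM, hgu, -⟩ := occP hc hEK hd hP
  obtain ⟨u', hu', hhi', hM', hgM', hgu', -⟩ := occP hc hE hd' hP'
  rw [hhi]
  rcases Nat.lt_or_ge d'.lo (u + Wd c u) with hlt | hge
  · have hug : un c d'.lo = d'.lo := by
      rw [un_eq_iff]
      have := (Wd_dvd_gM hc hE hu' hM' (s' := d'.lo) (by omega) (by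
        have := Wd_pos c u'
        omega)).1
      rw [hgM'] at this
      exact this
    obtain ⟨k1, k2⟩ := isM_below hc hE hu' hug hM' (by omega) hgu'
    rw [hgM'] at k2
    have hle : d'.lo ≤ u := by
      by_contra hn
      have := unit_add_le hc hu hug (by omega)
      omega
    exact F1P_core hc hE hKK hu hug hM (by omega) hle k1 k2
  · have : u + Wd c u - d'.lo = 0 := by omega
    rw [this]
    simp

end Pool.Agent.Helper29.E3
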