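import Mathlib
import Pool.Agent.Helper99.E3.Far3

/-!
# E-T (MP_12a1af_nt), phase 3: far inequalities, the fields `F5R`, `F5P`, `F7`, `F8`
-/

variable [Pool.Agent.Helper29.E3.EpFn]

namespace Pool.Agent.Helper29.E3

open Pool.Agent.Helper29.ETK

open Pool.Agent.E3 (Desc IsDesc Occ ddist)

variable {c : ℕ}

/-- the cell of a zone of `R` type -/
theorem occR_cell (hc : 10 ≤ c) {t : ℕ} (ht : 9 ≤ epo c t) {d : Desc} (hd : Occ c t d)
    (hR : d.IsR) :
    ∃ b l, un c b = b ∧ 16 ≤ lg c b ∧ b ≤ d.lo ∧ d.lo < d.hi c ∧ b + Wd c b ≤ d.hi c ∧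
      b < wb c t ∧ d.hi c ≤ wb c t ∧ ep c b ≤ l ∧ l ≤ lg c b ∧
      d.hi c = gl c l b + CC c ^ l ∧ (l = ep c b ∨ (j0 c b < l ∧ Dt c l b ≤ t)) := by
  obtain ⟨b, hb, hb0, -, hcase⟩ := occR hc ht hd hR
  have hW := Wd_pos c b
  rcases hcase with ⟨h1, h2, -, h3, h4⟩ | ⟨h1, h2, h3⟩ | ⟨h1, h2, h3, h4⟩
  · obtain ⟨-, -, h5⟩ := big_of_not_isP hc (by omega) h2
    obtain ⟨k1, k2, k3, k4, k5⟩ := va_pos hc ht hb h3 h2
    exact ⟨b, lev c t b, hb, h5, by omega, by omega, by omega, h3, by omega, k3, k4, h4, k5⟩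
  · obtain ⟨h5, -⟩ := acts_cases hc ht hb h2
    obtain ⟨p1, p2, p3, p4, l, q1, q2, q3, -, -, -, q4⟩ := acts_pos hc ht hb h2
    exact ⟨b, l, hb, h5, by omega, by omega, by omega, p3, by omega, q1, q2, by omega, q4⟩
  · obtain ⟨h5, -⟩ := acts_cases hc ht hb h2
    obtain ⟨p1, p2, p3, p4, l, q1, q2, q3, -, -, -, q4⟩ := acts_pos hc ht hb h2
    exact ⟨b, l, hb, h5, by omega, by omega, by omega, p3, by omega, q1, q2, by omega, q4⟩

/-- field `F5R` of `FarKin` -/
theorem farF5R (hc : 10 ≤ c) {K : ℕ} (hE : 9 ≤ epo c K) :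
    ∀ d, Occ c K d → d.IsR → (CC c + 1) * (d.hi c - d.lo) ≤ CC c * (K - d.hi c) ∧
      d.hi c + 2 * Wd c d.lo ≤ K := by
  intro d hd hR
  obtain ⟨b, l, hb, h15, h1, h2, h3, h4, h5, h6, h7, h8, h9⟩ := occR_cell hc hE hd hR
  have hb0 : b ≠ 0 := by rintro rfl; simp [lg] at h15
  have hg1 := gl_le c l b
  have hg2 := lt_gl c l b
  have hgl : gl c l d.lo = gl c l b := gl_eq (dvd_gl c l b) (by omega) (by omega)
  have hlg : lg c b = lg c d.lo := lg_cell' hc hb0 h7 hgl.symm
  have hWW : Wd c d.lo = Wd c b := by unfold Wd ep; rw [hlg]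
  have hC := CC_ge hc
  rw [hWW]
  rcases h9 with h9 | ⟨h9, h10⟩
  · -- newborn cells
    have e1 : gl c l b = b := by
      rw [h9]
      exact gl_eq (un_eq_iff.mp hb) (le_refl _) (by have := Wd_pos c b; unfold Wd at this; omega)
    have e2 : CC c ^ l = Wd c b := by rw [h9]; rfl
    have h10 := (lt_wb_iff hc hE hb).mp h4
    have h11 := lt_tU c 3 b
    rw [e1, e2] at h8
    refine ⟨?_, by omega⟩
    have hx : d.hi c - d.lo ≤ Wd c b := by omega
    have hy : 2 * Wd c b ≤ K - d.hi c := by omega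
    calc (CC c + 1) * (d.hi c - d.lo) ≤ (CC c + 1) * Wd c b := Nat.mul_le_mul_left _ hx
      _ ≤ CC c * (2 * Wd c b) := by
          have : (CC c + 1) * Wd c b = CC c * Wd c b + Wd c b := by ring
          rw [this]
          have h11 : CC c * (2 * Wd c b) = CC c * Wd c b + CC c * Wd c b := by ring
          rw [h11]
          have : Wd c b ≤ CC c * Wd c b := Nat.le_mul_of_pos_left _ (by omega)
          omega
      _ ≤ _ := Nat.mul_le_mul_left _ hy
  · have hj8 : ep c b + 8 < l := h9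
    have e1 : 2 * CC c ^ l + gl c l b - b = CC c ^ l + (d.hi c - b) := by omega
    have e2 : sl c (CC c ^ l + (d.hi c - b)) = sl c (CC c ^ l) + sl c (d.hi c - b) :=
      sl_add (CC_dvd_pow (by omega)) _
    have e3 := sl_pow (c := c) (l := l) (by omega)
    have hp := pow_pos' c (l - 1)
    have hHl : Wd c b ≤ CC c ^ (l - 1) := pow_le c (by omega)
    unfold Dt at h10
    rw [e1, e2, e3] at h10
    have hd1 : CC c ∣ d.hi c - b := by
      refine Nat.dvd_sub ?_ ?_
      · rw [h8]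
        exact Dvd.dvd.add ((CC_dvd_pow (by omega)).trans (dvd_gl c l b)) (CC_dvd_pow (by omega))
      · exact (CC_dvd_Wd (by omega)).trans (un_eq_iff.mp hb)
    have h11 := CC_mul_sl hd1
    have h12 := le_sl c (d.hi c - b)
    refine ⟨?_, by omega⟩
    calc (CC c + 1) * (d.hi c - d.lo) ≤ (CC c + 1) * (d.hi c - b) :=
          Nat.mul_le_mul_left _ (by omega)
      _ = CC c * sl c (d.hi c - b) := h11.symm
      _ ≤ _ := Nat.mul_le_mul_left _ (by omega)

/-- field `F5P` of `FarKin` -/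
theorem farF5P (hc : 10 ≤ c) {K : ℕ} (hE : 9 ≤ epo c K) :
    ∀ d, Occ c K d → d.IsP → ∃ l, 1 ≤ l ∧ d.hi c - d.lo ≤ CC c ^ l ∧
      d.hi c + 5 * CC c ^ (l - 1) ≤ K ∧ (0 < d.lo → CC c ^ j0 c d.lo ≤ CC c ^ (l - 1)) ∧
      (d.lo = 0 → CC c ^ (l - 1) ≤ d.hi c) := by
  intro d hd hP
  have hE0 := epo_tm hc hE
  obtain ⟨u, hu, hhi, hM, hgM, hgu, hw⟩ := occP hc hE hd hP
  have hW := Wd_pos c u
  -- the case of the anchor 0
  have top : fin c K u → d.lo = 0 → ∃ l, 1 ≤ l ∧ d.hi c - d.lo ≤ CC c ^ l ∧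
      d.hi c + 5 * CC c ^ (l - 1) ≤ K ∧ (0 < d.lo → CC c ^ j0 c d.lo ≤ CC c ^ (l - 1)) ∧
      (d.lo = 0 → CC c ^ (l - 1) ≤ d.hi c) := by
    intro hf h0
    refine ⟨lg c u + 1, by omega, ?_, ?_, by omega, fun _ => ?_⟩
    · have := un_add_le (l := lg c u + 1) hu (by have := ep_le_lg c u; omega)
      rw [gl_top hc] at this
      omega
    · have h1 : Ut c (lg c u + 1) u ≤ K := by
        have h2 : exU c K (lg c u + 1) u := hf
        unfold exU at h2
        exact h2.trans (opp_le _ _ _)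
      unfold Ut at h1
      rw [gl_top hc] at h1
      have := le_sl c (u + Wd c u - 0)
      omega
    · simp only [Nat.add_sub_cancel]
      rcases Nat.eq_zero_or_pos u with h1 | h1
      · subst h1
        simp only [lg, Nat.log_zero_right, pow_zero]
        omega
      · have := lg_le c (s := u) (by omega)
        omega
  by_cases h12 : 16 ≤ lg c u
  · obtain ⟨l, hl, hj, hgl, hU, -⟩ := gM_gl hc hE hu hM
    have hj := hj h12
    rw [hgM] at hgl
    rcases Nat.eq_or_lt_of_le hl with hl0 | hl0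
    · apply top
      · unfold fin; rw [← hl0]; exact hU
      · rw [hgl, hl0, gl_top hc]
    · have hj8 : ep c u + 8 < l := hj
      have hu0 : u ≠ 0 := by rintro rfl; simp [lg] at h12
      have hpos := gl_pos (c := c) hu0 (show l ≤ lg c u by omega)
      have hUK : Ut c l u ≤ K := by
        unfold exU at hU
        exact hU.trans (opp_le _ _ _)
      have h3 := un_add_le (l := l) hu (by omega)
      refine ⟨l, by omega, by omega, ?_, fun _ => ?_, fun h => by omega⟩
      · unfold Ut at hUK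
        have := le_sl c (u + Wd c u - gl c l u)
        omega
      · have h4 : lg c d.lo = lg c u := by
          rw [hgl]
          exact (lg_cell hc (dvd_gl c l u) hpos (gl_le c l u) (lt_gl c l u)).symm
        have h5 : j0 c d.lo = j0 c u := by unfold j0 ep; rw [h4]
        rw [h5]
        exact pow_le c (by omega)
  · have hf : fin c (tm c K) u := by
      by_contra hn
      have := (big_of_not_fin hc (by omega) hn).2.2
      omega
    apply top (fin_mono (tm_le c K) hf)
    have hP0 : isP c (tm c K) u := Or.inl hf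
    rw [← hgM]
    unfold gM
    rw [if_pos hP0, ga_of_fin hc hf]

/-- field `F7` of `FarKin` -/
theorem farF7 (hc : 10 ≤ c) {K K' : ℕ} (hE : 9 ≤ epo c K') (hKK : K' ≤ K) :
    ∀ d, Occ c K d → d.IsP → d.lo < K' → K' < d.hi c → 10 * (K' - wb c K') ≤ 9 * (K - K') := by
  intro d hd hP _ hhi
  have hEK : 9 ≤ epo c K := hE.trans (epo_mono hKK)
  obtain ⟨u, hu, hhi', hM, hgM, hgu, -⟩ := occP hc hEK hd hP
  rw [hhi'] at hhi
  have h18 := lg_wb hc hE
  have h1 := lt_wb_add hc hE
  have h2 := wb_le hc hE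
  have hwu := (wb_spec hc K').1
  have hle : wb c K' ≤ u := by
    by_contra hn
    have := unit_add_le hc hu hwu (by omega)
    omega
  have hlg := lg_mono (c := c) hle
  obtain ⟨l, hl, hj, hgl, hU, -⟩ := gM_gl hc hEK hu hM
  have hj := hj (by omega)
  have hUK : Ut c l u ≤ K := by
    unfold exU at hU
    exact hU.trans (opp_le _ _ _)
  have h3 : u + Wd c u + 5 * CC c ^ (l - 1) ≤ Ut c l u := by
    unfold Ut
    have := le_sl c (u + Wd c u - gl c l u)
    have := gl_le c l u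
    omega
  have h4 : Wd c (wb c K') ≤ CC c ^ (l - 1) := by
    have := ep_mono (c := c) hle
    unfold j0 at hj
    exact pow_le c (by omega)
  omega

/-- the near threshold is very small -/
lemma gth_le_wd (hc : 10 ≤ c) {t : ℕ} (ht : 9 ≤ epo c t) : 2 * gth c t ≤ Wd c (wb c t - 1) := by
  have h0 := wb_pos hc ht
  have h1 := (ep_top hc ht (s := wb c t - 1) (by omega) (by have := wb_le hc ht; omega)).1
  have h2 := Gq_le_pow hc (E := epo c t - 1) (l := ep c (wb c t - 1)) (by omega) (by omega)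
  have h3 : Gq c (epo c t - 1) ≤ CC c * Gq c (epo c t - 1) :=
    Nat.le_mul_of_pos_left _ (CC_pos c)
  unfold gth Wd
  omega

/-- zones end below the top zone -/
lemma hi_le_wb (hc : 10 ≤ c) {K : ℕ} (hE : 9 ≤ epo c K) {d : Desc} (hd : Occ c K d) :
    d.hi c ≤ wb c K := by
  by_cases hP : d.IsP
  · obtain ⟨u, -, -, -, -, -, h⟩ := occP hc hE hd hP
    exact h
  · have hR : d.IsR := by
      cases d with
      | P g e => exact (hP trivial).elim
      | PT g e => exact (hP trivial).elim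
      | RS g b v => trivial
      | R b v => trivial
      | RT b v => trivial
      | RTh b v => trivial
    obtain ⟨b, l, -, -, -, -, -, -, h, -⟩ := occR_cell hc hE hd hR
    exact h

/-- field `F8` of `FarKin` -/
theorem farF8 (hc : 10 ≤ c) {K : ℕ} (hE : 9 ≤ epo c K) :
    ∀ d, Occ c K d → d.hi c + 2 * gth c K ≤ K := by
  intro d hd
  have h1 := wb_add_le hc hE
  have h2 := gth_le_wd hc hE
  have h3 := hi_le_wb hc hE hd
  omega

end Pool.Agent.Helper29.E3
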