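import Mathlib
import Pool.Agent.Helper99.E3.FarK3

/-!
# E-T (MP_12a1af_nt), phase 3: far kinematics, part 4 (F2, F2L, F2R, F3)
-/

variable [Pool.Agent.Helper29.E3.EpFn]

namespace Pool.Agent.Helper29.E3.K99

open Pool.Agent.Helper29.ETK
open Pool.Agent.E3 (Desc IsDesc Occ ddist)

variable {c : ℕ}

/-- `P` kinds are not `R` kinds -/
lemma not_isRk_of_isPk {g v : ℕ} {k : Kid} (h : IsPk g k) : ¬ IsRk v k := h.not_isRk

/-- (F2) -/
theorem far_F2 (hc : 10 ≤ c) {K K' : ℕ} (ht : 9 ≤ epo c K') (hKK : K' ≤ K) {d d' : Desc}
    (h : Occ c K d) (h' : Occ c K' d') (hR : d.IsR) (hP : d'.IsP) (hle : d'.hi c ≤ d.hi c) :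
    (10 * CC c + 9) * (d'.hi c - d.Ip c) ≤ 10 * CC c * (K - K') := by
  have htK : 9 ≤ epo c K := ht.trans (epo_mono hKK)
  obtain ⟨w, l, H⟩ := exists_RZ hc htK h hR
  have H' := PZ_of hc ht h' hP
  rcases Nat.lt_or_ge (d.Ip c) (d'.hi c) with h1 | h1
  · have hlt := H'.lt
    have h2 := down_core hc ht hKK H (s := d'.hi c - 1) (by omega) (by omega)
      (not_isRk_of_isPk (H'.up _ (by omega) (by omega)))
    rw [H'.uhi] at h2
    exact h2
  · rw [Nat.sub_eq_zero_of_le h1]
    simp

/-- the level of a `P` zone at the unit below its top -/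
lemma P_level (hc : 10 ≤ c) {t s g : ℕ} (ht : 9 ≤ epo c t) (h : IsPk g (kid c t s))
    (hg : 0 < g) :
    16 ≤ lg c s ∧ ∃ l, l ≤ lg c s ∧ j0 c s < l ∧ gl c l s = g ∧
      lev c (tm c t) (un c s) ≤ l ∧ l ≤ lev c t (un c s) := by
  obtain ⟨t0, h0, h1, h2⟩ := kid_P_spec h
  obtain ⟨h5, hle, -, -⟩ := epo_of_tm hc ht h0
  have hu := un_un (c := c) hc s
  have hnf : ¬ fin c t0 (un c s) := by
    intro hf
    unfold ga at h2
    rw [lev_of_fin hf, gl_top hc] at h2
    omega
  obtain ⟨-, -, h15⟩ := big_of_not_fin hc h5 hnf
  have hj := j0_lt_of_isP (c := c) (by omega) h1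
  have hle' := lev_le (c := c) t0 (un c s) (by omega)
  have hlt : lev c t0 (un c s) ≤ lg c (un c s) := by
    by_contra hn
    exact hnf (fin_of_lev (by omega) (by omega))
  have hE := epo_tm hc ht
  have hlu := lg_un (c := c) hc s
  have hju := j0_un (c := c) hc s
  refine ⟨by omega, lev c t0 (un c s), by omega, by omega, ?_, ?_, ?_⟩
  · rw [h2]; unfold ga
    exact (gl_un hc (by unfold j0 at hj; rw [ep_un hc] at hj; omega)).symm
  · rcases h0 with rfl | rfl
    · exact le_rfl
    · exact lev_mono hc (by omega) hu (by omega) (tm_le c _)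
  · rcases h0 with rfl | rfl
    · exact lev_mono hc (by omega) hu (by omega) (tm_le c t)
    · exact le_rfl

/-- (F2L) -/
theorem far_F2L (hc : 10 ≤ c) {K K' : ℕ} (ht : 9 ≤ epo c K') (hKK : K' ≤ K) {d d' : Desc}
    (h : Occ c K d) (h' : Occ c K' d') (hR : d.IsR) (hP : d'.IsP) (hlo : d.lo < d'.lo)
    (hle : d'.hi c ≤ d.hi c) :
    (10 * CC c + 9) * (d'.hi c - d.lo) ≤ 10 * CC c * (K - K') := by
  have htK : 9 ≤ epo c K := ht.trans (epo_mono hKK)
  have hE := epo_tm hc ht
  obtain ⟨w, l, H⟩ := exists_RZ hc htK h hR
  have H' := PZ_of hc ht h' hP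
  have hlt := H'.lt
  have hwlo := H.wlo
  set s := d'.hi c - 1 with hs
  have h1 : w ≤ s := by omega
  have h2 : s < d.hi c := by omega
  have hPk := H'.up s (by omega) (by omega)
  obtain ⟨h15, l', h3, h4, h5, h6, h7⟩ := P_level hc ht hPk (by omega)
  -- the level of the unit at `K` is `l`
  have hlu := lg_un (c := c) hc s
  have hlg := H.lg_eq hc h1 h2
  have hu := un_un (c := c) hc s
  have h8 : lev c (tm c K) (un c s) = l := H.lvl s h1 h2
  have hep := H.ep_eq hc h1 h2
  have hel := H.ep_le
  -- `l' < l`
  have h9 : l' < l := by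
    rcases Nat.lt_or_ge l' l with h9 | h9
    · exact h9
    · exfalso
      -- then the anchor of the zone is at most `w`
      have h10 : gl c l' s ≤ gl c l s := gl_mono_level h9
      rw [H.gl_eq h1 h2, h5] at h10
      have := gl_le c l w
      omega
  have h10 := up_core hc ht hKK H h1 h2 (by omega) (by
    have := jn_le_j0 c w
    have : j0 c s = j0 c w := by unfold j0; rw [hep]
    omega)
  rw [hs, H'.uhi] at h10
  refine le_trans (Nat.mul_le_mul_left _ (by omega)) h10

/-- (F2R) -/
theorem far_F2R (hc : 10 ≤ c) {K K' : ℕ} (ht : 9 ≤ epo c K') (hKK : K' ≤ K) {d d' : Desc}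
    (h : Occ c K d) (h' : Occ c K' d') (hR : d.IsR) (hR' : d'.IsR)
    (hlt : d'.hi c < d.hi c) :
    (10 * CC c + 9) * (d'.hi c - d.lo) ≤ 10 * CC c * (K - K') := by
  have htK : 9 ≤ epo c K := ht.trans (epo_mono hKK)
  have hE := epo_tm hc ht
  obtain ⟨w, l, H⟩ := exists_RZ hc htK h hR
  obtain ⟨w', l', H'⟩ := exists_RZ hc ht h' hR'
  rcases Nat.lt_or_ge d.lo (d'.hi c) with h0 | h0
  swap
  · rw [Nat.sub_eq_zero_of_le h0]; simp
  have hwlo := H.wlo
  set s := d'.hi c - 1 with hs
  have h1 : w ≤ s := by omega
  have h2 : s < d.hi c := by omega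
  have hW' := Wd_pos c w'
  have hw' := H'.hw
  have hip' := H'.ipv
  have h3 : w' ≤ s := by omega
  have h4 : s < d'.hi c := by omega
  have hlev := H'.lvl s h3 h4
  -- `l' < l`
  have h5 : l' < l := by
    by_contra hn
    push Not at hn
    -- `C ^ l` divides the top of `d'`, which lies inside the cell of `d`
    have h6 : CC c ^ l ∣ d'.hi c := by
      rw [H'.hv]
      exact (pow_dvd' c hn).trans ((dvd_gl _ _ _).add dvd_rfl)
    have h7 := H.hv
    have h8 : gl c l (d'.hi c) = gl c l w :=
      Helper29.ETK.gl_eq (dvd_gl _ _ _) ((gl_le _ _ _).trans (by omega)) (by omega)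
    have h9 : gl c l (d'.hi c) = d'.hi c :=
      Helper29.ETK.gl_eq h6 le_rfl (by have := pow_pos' c l; omega)
    have h10 := gl_le c l w
    omega
  have hne : l ≠ ep c w := by
    -- the level of the smaller cell is at least the newborn level
    have h6 := H'.jl
    have h7 := H.jl
    intro h8
    -- `w'` is in the cell of `d`
    have hlg1 := H.lg_eq hc h1 h2
    have hlg2 := H'.lg_eq hc h3 h4
    have hjs : ep c (un c s) = ep c w := by
      have h9 : gl c (ep c w) w = gl c (ep c w) (un c s) := by
        rw [← h8, gl_un hc (by rw [H.ep_eq hc h1 h2]; exact H.ep_le), H.gl_eq h1 h2]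
      exact (jn_cell hc (by have := H.lg15; omega) h9).1
    have h15 := H.lg15
    have hlu := lg_un (c := c) hc s
    have h10 := jn_le_lev (c := c) (tm c K') (un c s) (by omega)
    omega
  have h10 := up_core hc ht hKK H h1 h2 (by omega) hne
  rw [hs, H'.uhi hc] at h10
  refine le_trans (Nat.mul_le_mul_left _ (by omega)) h10

/-- (F3) -/
theorem far_F3 (hc : 10 ≤ c) {K K' : ℕ} (ht : 9 ≤ epo c K') (hKK : K' ≤ K) {d d' : Desc}
    (h : Occ c K d) (h' : Occ c K' d') (hR : d.IsR) (hR' : d'.IsR)
    (heq : d.hi c = d'.hi c) :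
    ep c d.lo = ep c d'.lo ∧ (10 * CC c + 9) * ddist c d d' ≤ 10 * CC c * (K - K') := by
  have htK : 9 ≤ epo c K := ht.trans (epo_mono hKK)
  have hE := epo_tm hc ht
  obtain ⟨w, l, H⟩ := exists_RZ hc htK h hR
  obtain ⟨w', l', H'⟩ := exists_RZ hc ht h' hR'
  have hW := Wd_pos c w
  have hW' := Wd_pos c w'
  have hw := H.hw
  have hw' := H'.hw
  have hip := H.ipv
  have hip' := H'.ipv
  have him := H.imI
  have him' := H'.imI
  constructor
  · have h1 := H.ep_eq hc H.wlo H.lolt
    have h2 := H'.ep_eq hc H'.wlo H'.lolt
    have h3 := H.ep_eq hc (s := d.hi c - 1) (by omega) (by omega)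
    have h4 := H'.ep_eq hc (s := d'.hi c - 1) (by omega) (by omega)
    rw [h1, h2, ← h3, ← h4, heq]
  · unfold ddist
    rcases Nat.lt_or_ge (d.Ip c) (d'.Im c) with h1 | h1
    · -- the front came down
      have e : d.Im c - d'.Ip c = 0 := by omega
      rw [e, zero_add]
      have h2 := down_core hc ht hKK H (s := d'.Im c - 1) (by omega) (by omega) (by
        rw [heq]
        exact H'.below _ (by omega))
      rw [H'.uIm.2] at h2
      exact h2
    · rcases Nat.lt_or_ge (d'.Ip c) (d.Im c) with h2 | h2
      · -- the front went up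
        have e : d'.Im c - d.Ip c = 0 := by omega
        rw [e, add_zero]
        obtain ⟨s, hs⟩ : ∃ s, s = d.Im c - 1 := ⟨_, rfl⟩
        have hsI : s + 1 = d.Im c := by omega
        have h3 : d'.Ip c ≤ s := by omega
        have h4 : s < d'.hi c := by omega
        have hk' := H'.upm s (by omega) h4
        obtain ⟨hn1, hn2, -⟩ := kid_R_spec hk'
        have hu := un_un (c := c) hc s
        have h5 := H'.lvl s (by omega) h4
        have h6 := H'.lvl' s h3 h4
        have hlgs := H'.lg_eq hc (s := s) (by omega) h4
        have hWs := H'.Wd_eq hc (s := s) (by omega) h4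
        have heps := H'.ep_eq hc (s := s) (by omega) h4
        have h15 := H'.lg15
        have hlu := lg_un (c := c) hc s
        -- at `K` the unit is of `P` type
        have hP : ∃ g, IsPk g (kid c K s) := by
          rcases Nat.eq_or_lt_of_le (show d.Im c ≤ d.hi c by omega) with h7 | h7
          · exact H.belP h7 s hsI
          · rcases kid_cases c K s with ⟨t0, -, -, h8⟩ | ⟨hm1, hm2, h8⟩
            · exact ⟨_, h8⟩
            · exfalso
              set v1 := va c K (un c s) with hv1
              have h9 : s < v1 := by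
                obtain ⟨-, h11, h12, -, h14, -⟩ := R_level hc htK h8
                have hsv : un c s + Wd c (un c s) ≤ v1 := by
                  rw [h14]
                  exact un_add_le hu (by omega)
                rw [Wd_un hc] at hsv
                have := lt_un c s
                omega
              have h10 := H.below s hsI
              have h11 : IsRk (d.hi c) (kid c K (d.Im c)) := H.upm _ le_rfl h7
              rcases Nat.lt_trichotomy v1 (d.hi c) with h12 | h12 | h12
              · -- `v1` is not an end of a region of `K'`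
                have h13 := lam_R hc ht hKK h8
                apply h13
                have h14 := H'.upm (v1 - 1) (by omega) (by omega)
                have h16 := H'.upm v1 (by omega) (by omega)
                rw [kid_eq_R h14, kid_eq_R h16]
              · rw [← h12] at h10
                exact h10 h8
              · -- the run of `v1` contains `d.Im`
                have h13 := (not_isM_above' hc htK (s := s) (s' := d.Im c)
                  (by unfold isM; tauto) (by omega) (by rw [← hv1]; omega))
                have h14 : IsRk v1 (kid c K (d.Im c)) := by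
                  rw [kid_of_not_isM h13.1, h13.2]
                  exact kidR_isRk _ _ _
                have := h14.inj h11
                omega
        obtain ⟨g, hg⟩ := hP
        obtain ⟨t0, ht0, hp0, -⟩ := kid_P_spec hg
        obtain ⟨ht05, ht0K, -, -⟩ := epo_of_tm hc htK ht0
        have htm0 : tm c K' ≤ t0 := by
          rcases ht0 with rfl | rfl
          · exact tm_mono hc ht hKK
          · exact (tm_le c K').trans hKK
        obtain ⟨k1, k2, k3, k4, -⟩ := isP_level hc ht05 hu hp0
        set lu := lev c t0 (un c s) with hlu'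
        have k5 := k2 (by omega)
        have k6 : l' ≤ lu := by
          rw [← h5]
          exact lev_mono hc (by omega) hu (by omega) htm0
        have k7 : l' < lu := by
          rcases Nat.eq_or_lt_of_le k6 with k7 | k7
          · exfalso
            apply hn1
            refine isP_antitone hc (by omega) hu (by omega) htm0 (by omega) hp0 (by omega)
          · exact k7
        have k8 : Ut c lu (un c s) ≤ K := by
          unfold exU at k4
          exact k4.trans ((opp_le _ _ _).trans ht0K)
        have hjw : j0 c (un c s) = j0 c w' := by unfold j0 ep; rw [hlu, hlgs]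
        have hnU : ¬ exU c (tm c K') lu w' := by
          intro hU
          have k9 := (exU_iff hc (by omega) H'.uw (by omega) (by omega) (by omega)).mp hU
          rw [H'.levt] at k9
          omega
        have hlate := late' hc ht (Ut_le hc (l := lu) (b := w') (by omega) (by omega))
          (gl_le c lu w') (le_Ut c lu w') hnU
        have hel := H'.ep_le
        have hglu : gl c l' (un c s) = gl c l' w' := by
          rw [gl_un hc (by rw [heps]; exact hel), H'.gl_eq (by omega) h4]
        have hglu2 : gl c lu w' = gl c lu (un c s) := (gl_eq_of_gl_eq k6 hglu).symm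
        have huw := H'.un_ge hc (s := s) (by omega)
        have hdiff := Ut_diff (c := c) (l := lu) (b := w') (b' := un c s) (by omega) H'.uw
          (by omega) hglu2 (by rw [Wd_un hc, hWs]) huw
        have huI := H.uIm.2
        rw [← hs] at huI
        have hx : CC c ∣ un c s - w' :=
          CC_dvd_sub hu H'.uw (by rw [Wd_un hc, hWs]) (by omega)
        have hlt' : w' < un c s := by
          by_contra hn
          have e1 : un c s = w' := by omega
          rw [e1, hWs] at huI
          omega
        have hWx : Wd c w' ≤ un c s - w' := by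
          have := unit_add_le hc H'.uw hu hlt'
          omega
        have k10 := num9 (c := c) (K := K) (K' := K') hx (by rw [← hdiff]; exact k8) hlate hWx
        have e3 : d.Im c - d'.Ip c = un c s - w' := by rw [← huI, hWs, ← hw']; omega
        rw [e3]
        exact k10
      · have e1 : d.Im c - d'.Ip c = 0 := by omega
        have e2 : d'.Im c - d.Ip c = 0 := by omega
        rw [e1, e2]
        simp

end Pool.Agent.Helper29.E3.K99
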