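import Mathlib
import Pool.Agent.Helper99.E3.FarK5

/-!
# E-T (MP_12a1af_nt), phase 3: far kinematics, part 6 (the top zone of the smaller time: T1, T1P)
-/

variable [Pool.Agent.Helper29.E3.EpFn]

namespace Pool.Agent.Helper29.E3.K99

open Pool.Agent.Helper29.ETK
open Pool.Agent.E3 (Desc IsDesc Occ ddist)

variable {c : ℕ}

/-- the down event of the unit below an `R` zone, in numbers -/
lemma RZ.down {t w l : ℕ} {d : Desc} (H : RZ c t d w l)
    (hl : j0 c w < l) (hD : Dt c l w ≤ t) :
    ∃ q, CC c * q = (d.hi c - w) + CC c ^ l ∧ CC c ^ (l - 1) ≤ q ∧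
      d.hi c + 5 * CC c ^ (l - 1) + (d.hi c - w) + q ≤ t ∧ w < d.hi c ∧
      d.hi c - w ≤ CC c ^ l := by
  have h15 := H.lg15
  have hel := H.ep_le
  have hv := H.hv
  have hgw := gl_le c l w
  have hlt := lt_gl c l w
  have hdw : CC c ∣ 2 * CC c ^ l + gl c l w - w :=
    dvd_of_unit' (c := c) (l := l) (b := w) (by omega) H.uw hel
  have hx : 2 * CC c ^ l + gl c l w - w = (d.hi c - w) + CC c ^ l := by omega
  rw [hx] at hdw
  obtain ⟨q, hq⟩ := hdw
  have hC := CC_pos c
  have hdiv : (d.hi c - w + CC c ^ l) / CC c = q := by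
    rw [hq, Nat.mul_div_cancel_left _ hC]
  refine ⟨q, hq.symm, ?_, ?_, by omega, by omega⟩
  · have h1 : CC c * CC c ^ (l - 1) ≤ CC c * q := by
      rw [← pow_succ_pred (by omega), ← hq]
      omega
    exact le_of_mul_le_mul_left h1 hC
  · unfold Dt sl at hD
    rw [hx, hdiv] at hD
    omega

lemma RZ.w_eq (hc : 10 ≤ c) {t w l b : ℕ} {d : Desc} (H : RZ c t d w l) (hlo : d.lo = b)
    (hIp : d.Ip c = b + Wd c b) : w = b := by
  have h1 := H.hw
  have h2 := H.Wd_eq hc (s := b) (by have := H.wlo; omega) (by have := H.lolt; omega)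
  omega

/-- an `RT` zone does not start at the bottom of its cell -/
lemma RT_bottom (hc : 10 ≤ c) {t b v w l : ℕ} (ht : 9 ≤ epo c t) {r0 r1 : ETS.Reg}
    (h : IsDesc c t (.RT b v) r0 r1) (H : RZ c t (.RT b v) w l) : gl c l w < b := by
  obtain ⟨-, -, h1, h2, h3, h4⟩ := h
  have hw : w = b := H.w_eq hc rfl rfl
  subst hw
  have hk : IsRk v (kid c t w) := Or.inr (Or.inl (h3 w le_rfl h1))
  have hR : kidR c t v = .RT v := by rw [← kid_eq_R hk, h3 w le_rfl h1]
  obtain ⟨ha0, hav⟩ : 0 < ab c t ∧ av c t = v := by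
    rcases kidR_cases c t v with h5 | h5 | h5
    · rw [h5.1] at hR; cases hR
    · exact ⟨h5.2.1, h5.2.2.1⟩
    · rw [h5.1] at hR; cases hR
  obtain ⟨hu, ha⟩ := Helper29.E3.ab_spec hc ht ha0
  set a := ab c t with haa
  have hvM : v = vM c t a := by rw [← hav]; rfl
  have hb1 : a < w := by
    obtain ⟨k1, k2, k3⟩ := kid_R_spec hk
    rw [H.uw] at k1 k2 k3
    exact lt_of_va_eq hc ht hu H.uw ha (by unfold isM; tauto) (by rw [← k3, hvM])
  obtain ⟨q1, q2, q3, q4, -, q6⟩ := acts_level hc ht hu ha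
  have h5 : lev c (tm c t) w = lev c (tm c t) a := by
    have := (q6 w hb1.le (by omega)).1
    rw [H.uw] at this
    exact this
  rw [H.levt] at h5
  rw [← h5] at q4
  have hv := H.hv
  have hv' : v = gl c l w + CC c ^ l := hv
  have h6 := gl_le c l a
  omega

/-- a zone of `R` type contains whole units -/
lemma RZ.units (hc : 10 ≤ c) {t w l s : ℕ} {d : Desc} (ht : 9 ≤ epo c t) (H : RZ c t d w l)
    (hI : d.lo = w ∨ d.lo = d.Im c) (h1 : d.lo ≤ s) (h2 : s < d.hi c) :
    d.lo ≤ un c s ∧ un c s + Wd c s ≤ d.hi c := by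
  have hwlo := H.wlo
  constructor
  · have h3 : un c d.lo = d.lo := by
      rcases hI with h3 | h3
      · rw [h3]; exact H.uw
      · have h4 := H.uIm
        rw [h3]
        have h5 := un_end hc (un_un hc (d.Im c - 1))
        rw [Wd_un hc, h4.2] at h5
        exact h5
    have h4 := un_mono (c := c) hc h1
    rw [h3] at h4
    exact h4
  · have h3 := H.uhi hc
    have h4 := un_mono (c := c) hc (show s ≤ d.hi c - 1 by omega)
    rcases Nat.eq_or_lt_of_le h4 with h5 | h5
    · have h6 : Wd c s = Wd c (d.hi c - 1) := by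
        rw [← Wd_un hc s, ← Wd_un hc (d.hi c - 1), h5]
      omega
    · have h6 := unit_add_le hc (un_un hc s) (un_un hc _) h5
      rw [Wd_un hc] at h6
      have := un_le c (d.hi c - 1)
      omega

/-- (T1) -/
theorem far_T1 (hc : 10 ≤ c) {K K' : ℕ} (ht : 9 ≤ epo c K') (hKK : K' ≤ K) {d : Desc} {s : ℕ}
    (h : Occ c K d) (hR : d.IsR) (hs : wb c K' ≤ s) (h1 : d.lo ≤ s) (h2 : s < d.hi c) :
    d.lo ≤ un c s ∧ un c s + Wd c s ≤ d.hi c ∧
    ((∃ b, d = .RTh b (b + Wd c b)) ∨
      (10 * CC c + 9) * (un c s + Wd c s - d.lo) ≤ 10 * CC c * (K - K')) := by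
  have htK : 9 ≤ epo c K := ht.trans (epo_mono hKK)
  obtain ⟨w, l, H⟩ := exists_RZ hc htK h hR
  have hwlo := H.wlo
  have hI : d.lo = w ∨ d.lo = d.Im c := by
    rcases h with ⟨r0, r1, h⟩
    cases d with
    | P g e => exact absurd hR (by simp [Desc.IsR])
    | PT g b => exact absurd hR (by simp [Desc.IsR])
    | RS g b v => left; exact (H.w_eq hc rfl rfl).symm
    | R b v => right; rfl
    | RT b v => left; exact (H.w_eq hc rfl rfl).symm
    | RTh b v => left; exact (H.w_eq hc rfl rfl).symm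
  obtain ⟨k1, k2⟩ := H.units hc htK hI h1 h2
  refine ⟨k1, k2, ?_⟩
  have hW := Wd_pos c w
  have hlt := lt_wb_add (c := c) hc ht
  have hWw : Wd c (wb c K') ≤ Wd c s := Wd_mono hs
  have hWs := H.Wd_eq hc (s := s) (by omega) h2
  have h15 := H.lg15
  have hCC := CC_ge hc
  rcases H.nb with h5 | ⟨h5, h6⟩
  · -- a newborn unit
    have hv := H.hv
    have e1 : gl c l w = w := by
      rw [h5]
      exact H.uw
    have e2 : CC c ^ l = Wd c w := by rw [h5]; rfl
    rw [e1, e2] at hv
    rcases h with ⟨r0, r1, h⟩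
    cases d with
    | P g e => exact absurd hR (by simp [Desc.IsR])
    | PT g b => exact absurd hR (by simp [Desc.IsR])
    | RTh b v =>
      left
      have e : w = b := H.w_eq hc rfl rfl
      subst e
      exact ⟨w, by rw [show v = w + Wd c w from hv]⟩
    | RT b v =>
      exfalso
      have e : w = b := H.w_eq hc rfl rfl
      have := RT_bottom hc htK h H
      omega
    | R b v =>
      exfalso
      have e3 := H.hw
      have e4 := H.lolt
      simp only [Desc.Ip, Desc.hi, Desc.lo] at e3 e4 hv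
      omega
    | RS g b v =>
      right
      have e : w = b := H.w_eq hc rfl rfl
      subst e
      obtain ⟨-, -, p1, p2, p3, p4, p5, p6⟩ := h
      obtain ⟨q1, q2, q3, q4, -, -⟩ := PT_spec (p5 w p2 (by omega))
      -- the unit has an event
      have r1 : ¬ isP c (tm c K) w := by
        refine not_isP_of_lev (c := c) (b := w) (by omega) ?_
        rw [H.levt, h5]
        exact jn_le_j0 c w
      have r2 : isP c K w := by
        by_contra hn
        exact q4 ⟨fun h => absurd h r1, fun h => absurd h hn⟩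
      obtain ⟨-, r3, -, r4, -⟩ := isP_level hc (by omega) q3 r2
      have r3 := r3 (by omega)
      have r5 : Ut c (lev c K w) w ≤ K := by
        unfold exU at r4
        exact r4.trans (opp_le _ _ _)
      have r6 : w + 5 * CC c ^ (lev c K w - 1) ≤ Ut c (lev c K w) w := by
        unfold Ut
        have := le_sl c (w + Wd c w - gl c (lev c K w) w)
        have := gl_le c (lev c K w) w
        omega
      have r7 : 1024 * Wd c w ≤ CC c ^ (lev c K w - 1) := by
        have : CC c ^ (ep c w + 1) ≤ CC c ^ (lev c K w - 1) :=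
          pow_le c (by unfold j0 at r3; omega)
        rw [pow_succ] at this
        have h8 : 1024 * Wd c w ≤ CC c * Wd c w := Nat.mul_le_mul_right _ hCC
        have h9 : CC c ^ ep c w * CC c = CC c * Wd c w := by unfold Wd; ring
        omega
      simp only [Desc.lo, Desc.hi] at h1 h2 k1 k2 hv ⊢
      have hx : un c s + Wd c s - w ≤ Wd c w := by omega
      have hy : 2 * Wd c w ≤ K - K' := by omega
      calc (10 * CC c + 9) * (un c s + Wd c s - w) ≤ (10 * CC c + 10 * CC c) * Wd c w :=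
            Nat.mul_le_mul (by omega) hx
        _ = 10 * CC c * (2 * Wd c w) := by ring
        _ ≤ _ := Nat.mul_le_mul_left _ hy
  · right
    obtain ⟨q, q1, q2, q3, q4, q5⟩ := H.down h5 h6
    have h7 : Wd c w ≤ CC c ^ (l - 1) := pow_le c (by unfold j0 at h5; omega)
    have h9 : (d.hi c - w) + q ≤ K - K' := by omega
    calc (10 * CC c + 9) * (un c s + Wd c s - d.lo) ≤ (10 * CC c + 10) * (d.hi c - w) :=
          Nat.mul_le_mul (by omega) (by omega)
      _ = 10 * CC c * (d.hi c - w) + 10 * (d.hi c - w) := by ring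
      _ ≤ 10 * CC c * (d.hi c - w) + 10 * (CC c * q) := by omega
      _ = 10 * CC c * ((d.hi c - w) + q) := by ring
      _ ≤ _ := Nat.mul_le_mul_left _ h9

/-- (T1P) -/
theorem far_T1P (hc : 10 ≤ c) {K K' : ℕ} (ht : 9 ≤ epo c K') (hKK : K' ≤ K) {d : Desc} {s : ℕ}
    (h : Occ c K d) (hP : d.IsP) (hs : wb c K' ≤ s) (h1 : d.lo ≤ s) (h2 : s < d.hi c) :
    d.lo ≤ un c s ∧ un c s + Wd c s ≤ d.hi c ∧ 4 * CC c ^ j0 c s ≤ K - K' := by
  have htK : 9 ≤ epo c K := ht.trans (epo_mono hKK)
  have H := PZ_of hc htK h hP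
  have hk := H.up s h1 h2
  refine ⟨?_, ?_, ?_⟩
  · obtain ⟨t0, h0, h3, h4⟩ := kid_P_spec hk
    rw [h4]
    exact gl_le _ _ _
  · have h3 := H.uhi
    have h4 := un_mono (c := c) hc (show s ≤ d.hi c - 1 by omega)
    rcases Nat.eq_or_lt_of_le h4 with h5 | h5
    · have h6 : Wd c s = Wd c (d.hi c - 1) := by
        rw [← Wd_un hc s, ← Wd_un hc (d.hi c - 1), h5]
      omega
    · have h6 := unit_add_le hc (un_un hc s) (un_un hc _) h5
      rw [Wd_un hc] at h6
      have := un_le c (d.hi c - 1)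
      omega
  · have h18 := lg_wb hc ht
    have hlg := lg_mono (c := c) hs
    obtain ⟨l, k1, k2, k3, k4, k5⟩ := K3' hc htK hk
    have k3 := k3 (by omega)
    have k6 := le_sl c (un c s + Wd c s - d.lo)
    have k7 : CC c ^ j0 c s ≤ CC c ^ (l - 1) := pow_le c (by omega)
    have k8 := lt_wb_add (c := c) hc ht
    have k9 : Wd c (wb c K') ≤ Wd c s := Wd_mono hs
    have k10 := lt_un c s
    have k11 : 1024 * Wd c s ≤ CC c ^ j0 c s := by
      have : CC c ^ (ep c s + 1) ≤ CC c ^ j0 c s := pow_le c (by unfold j0; omega)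
      rw [pow_succ] at this
      have h8 : 1024 * Wd c s ≤ CC c * Wd c s := Nat.mul_le_mul_right _ (CC_ge hc)
      have h9 : CC c ^ ep c s * CC c = CC c * Wd c s := by unfold Wd; ring
      omega
    omega

end Pool.Agent.Helper29.E3.K99
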